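import Pool.Agent.LibSelfLaw.Savings

/-!
The self-improvement law for the number of advice bits needed to complement nondeterministic
exponential time, and its consequences at the scales `n - C log n`, `δ n`, `n ^ α`, `C log n`.
-/

namespace Pool.Agent.Old6cef49.AdviceLaws

open Pool.Agent.LibNexp Pool.Agent.LibSelfLaw

theorem result (O : List Bool → Bool) :
    (∀ s g : ℕ → ℕ, Monotone g → (∀ n, g (n + 1) ≤ g n + 1) →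
      (∃ k : ℕ, ∀ n, n ≤ g n ^ k + k) →
      NEXP O (fun e : Fin 2 → List Bool => (e 1).length = g (e 0).length) →
      (∀ c : ℕ, ∃ n₀, ∀ n, n₀ ≤ n → s n + c ≤ g n) →
      (∀ L ∈ NEXPLang O, ∃ c : ℕ, Lᶜ ∈ WithAdvice (NEXPLang O) {f | ∀ n, (f n).length ≤ s n + c}) →
      ∀ j : ℕ, ∀ L ∈ NEXPLang O, ∃ c : ℕ,
        Lᶜ ∈ WithAdvice (NEXPLang O) {f | ∀ n, (f n).length ≤ s (g^[j] n) + c}) ∧
    (∀ C : ℝ, 0 < C →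
      (∀ L ∈ NEXPLang O, ∃ c : ℝ, Lᶜ ∈ WithAdvice (NEXPLang O)
        {f | ∀ n : ℕ, ((f n).length : ℝ) ≤ n - C * Real.log ((n : ℝ) + 1) + c}) →
      ∀ C' : ℝ, ∀ L ∈ NEXPLang O, ∃ c : ℝ, Lᶜ ∈ WithAdvice (NEXPLang O)
        {f | ∀ n : ℕ, ((f n).length : ℝ) ≤ n - C' * Real.log ((n : ℝ) + 1) + c}) ∧
    (∀ δ : ℝ, δ < 1 →
      (∀ L ∈ NEXPLang O, ∃ c : ℝ,
        Lᶜ ∈ WithAdvice (NEXPLang O) {f | ∀ n : ℕ, ((f n).length : ℝ) ≤ δ * n + c}) →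
      ∀ ε : ℝ, 0 < ε → ∀ L ∈ NEXPLang O, ∃ c : ℝ,
        Lᶜ ∈ WithAdvice (NEXPLang O) {f | ∀ n : ℕ, ((f n).length : ℝ) ≤ ε * n + c}) ∧
    (∀ α : ℝ, α < 1 →
      (∀ L ∈ NEXPLang O, ∃ c : ℝ,
        Lᶜ ∈ WithAdvice (NEXPLang O) {f | ∀ n : ℕ, ((f n).length : ℝ) ≤ c * ((n : ℝ) + 1) ^ α}) →
      ∀ ε : ℝ, 0 < ε → ∀ L ∈ NEXPLang O, ∃ c : ℝ,
        Lᶜ ∈ WithAdvice (NEXPLang O) {f | ∀ n : ℕ, ((f n).length : ℝ) ≤ c * ((n : ℝ) + 1) ^ ε}) ∧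
    (∀ C : ℝ,
      (∀ L ∈ NEXPLang O, ∃ c : ℝ, Lᶜ ∈ WithAdvice (NEXPLang O)
        {f | ∀ n : ℕ, ((f n).length : ℝ) ≤ C * Real.log ((n : ℝ) + 1) + c}) →
      ∀ ε : ℝ, 0 < ε → ∀ L ∈ NEXPLang O, ∃ c : ℝ, Lᶜ ∈ WithAdvice (NEXPLang O)
        {f | ∀ n : ℕ, ((f n).length : ℝ) ≤ ε * Real.log ((n : ℝ) + 1) + c}) := by
  refine ⟨?_, fun C hC h C' => Sav.law hC h C', fun δ hδ h ε hε => Lin.law hδ h hε,
    fun α hα h ε hε => Pw.law hα h hε, fun C h ε hε => Lg.law h hε⟩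
  rintro s g hg hlip ⟨k, hk⟩ hG hs h j
  have hS : Slow O g := ⟨hg, hlip, ⟨fun n => n ^ k + k, (PolyB.id.pow k).add (PolyB.const k),
    fun a b hab => Nat.add_le_add_right (Nat.pow_le_pow_left hab k) k, hk⟩, hG⟩
  exact self_law hS hs h j

end Pool.Agent.Old6cef49.AdviceLaws
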