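import Pool.Agent.LibAA75.F2

/-!
What does it give to complement nondeterministic exponential time on most inputs, by methods which
relativise or algebrize?
-/

namespace Pool.Agent.Old6cef49.AverageCaseLaws

open Filter Pool.Agent.LibNexp
open Pool.Agent.LibAL48 (Fields IsExt ext)

/-- The number of strings of length `m` in exactly one of `A`, `B`. -/
noncomputable def err (A B : Set (List Bool)) (m : ℕ) : ℕ :=
  Nat.card {z : List Bool // z.length = m ∧ ¬ (z ∈ A ↔ z ∈ B)}

/-- Every complement of a language in `NEXP` with the oracle `X` agrees with some language in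
`NEXP` with the oracle `Y` on all but a fraction `2 ^ (- r m)` of the strings of each large length
`m`. -/
def Approx (X Y : List Bool → Bool) (r : ℕ → ℝ) : Prop :=
  ∀ L ∈ NEXPLang X, ∃ N ∈ NEXPLang Y, ∀ᶠ m in atTop, (2 : ℝ) ^ r m * err Lᶜ N m ≤ 2 ^ m

/-- The same with one-sided errors. -/
def Inner (X Y : List Bool → Bool) (r : ℕ → ℝ) : Prop :=
  ∀ L ∈ NEXPLang X, ∃ N ∈ NEXPLang Y, N ⊆ Lᶜ ∧
    ∀ᶠ m in atTop, (2 : ℝ) ^ r m * err Lᶜ N m ≤ 2 ^ m

/-- Every complement of a language in `NEXP` agrees with some language in `NEXP` on more than half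
of the strings of each large length. -/
def More (O : List Bool → Bool) : Prop :=
  ∀ L ∈ NEXPLang O, ∃ N ∈ NEXPLang O, ∀ᶠ m in atTop, 2 * err Lᶜ N m < 2 ^ m

/-- The complements of the languages in nondeterministic exponential time with the oracle `X` are in
nondeterministic exponential time with the oracle `Y`. -/
def Q1 (X Y : List Bool → Bool) : Prop := ∀ L ∈ NEXPLang X, Lᶜ ∈ NEXPLang Y

/-- Complements with `a n` bits of advice, up to an additive constant. -/
def Enough (X Y : List Bool → Bool) (a : ℕ → ℕ) : Prop :=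
  ∀ L ∈ NEXPLang X, ∃ c : ℕ, Lᶜ ∈ WithAdvice (NEXPLang Y) {f | ∀ n, (f n).length ≤ a n + c}

/-- The union over `c` of nondeterministic time `2 ^ (h(n) ^ c + c)` is closed under
complement. -/
def Closed (O : List Bool → Bool) (h : ℕ → ℕ) : Prop :=
  ∀ L : Set (List Bool),
    (∃ c : ℕ, NTime O (fun n => 2 ^ (h n ^ c + c)) fun e : Fin 1 → List Bool => e 0 ∈ L) →
    ∃ c : ℕ, NTime O (fun n => 2 ^ (h n ^ c + c)) fun e : Fin 1 → List Bool => e 0 ∉ L

/-- `Ω` is the oracle of an extension of `O` by polynomials, of degree at most 2 in every variable,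
over the fields of the family `𝕂`. -/
def Ext (𝕂 : Fields) (O Ω : List Bool → Bool) : Prop :=
  ∃ P : ∀ s n, MvPolynomial (Fin n) (𝕂.K s), IsExt 𝕂 O P ∧ Ω = ext 𝕂 O P

theorem approx_iff {X Y : List Bool → Bool} {r : ℕ → ℝ} :
    Approx X Y r ↔ LibAA75.ApR2 X Y False r := by
  unfold Approx LibAA75.ApR2 err
  simp only [LibAV75.err_eq, false_imp_iff, true_and]

theorem inner_iff {X Y : List Bool → Bool} {r : ℕ → ℝ} :
    Inner X Y r ↔ LibAA75.ApR2 X Y True r := by
  unfold Inner LibAA75.ApR2 err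
  simp only [LibAV75.err_eq, true_imp_iff]

theorem more_iff {O : List Bool → Bool} : More O ↔ LibAV75.More O := by
  unfold More LibAV75.More err
  simp only [LibAV75.err_eq]

/-- `r` is real, nondecreasing, greater than 1: agreement on a fraction `1 / 2 + ε` at least. -/
theorem result :
    -- the implications between average-case complementations
    (∀ (𝕂 : Fields) (r : ℕ → ℝ) (s : ℕ → ℕ), Monotone r → 1 < r 0 →
      (List.TFAE [
        ∀ O, Approx O O r → Approx O O fun n => s n,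
        ∀ O, Inner O O r → Inner O O fun n => s n,
        ∀ O, Inner O O r → Approx O O fun n => s n,
        ∀ O Ω, Ext 𝕂 O Ω → Approx Ω O r → Approx O Ω fun n => s n,
        ∀ O Ω, Ext 𝕂 O Ω → Inner Ω O r → Inner O Ω fun n => s n,
        ∀ O Ω, Ext 𝕂 O Ω → Inner Ω O r → Approx O Ω fun n => s n,
        ∃ C : ℕ, ∀ n ≥ C, ((min (s n) (n + 1) : ℕ) : ℝ) ≤
          C * (r (n ^ C) + Nat.log 2 (n + 1))]) ∧
      List.TFAE [
        ∀ O, Approx O O r → Inner O O fun n => s n,
        ∀ O Ω, Ext 𝕂 O Ω → Approx Ω O r → Inner O Ω fun n => s n,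
        ∃ C : ℕ, ∀ n ≥ C, s n = 0 ∨ (n : ℝ) ≤ C * (r (n ^ C) + Nat.log 2 (n + 1))]) ∧
    -- worst-case complementation, and complementation with advice
    (∀ (𝕂 : Fields) (r : ℕ → ℝ), Monotone r → 1 < r 0 →
      (List.TFAE [
        ∀ O, Approx O O r → Q1 O O,
        ∀ O, Inner O O r → Q1 O O,
        ∀ O Ω, Ext 𝕂 O Ω → Approx Ω O r → Q1 O Ω,
        ∀ O Ω, Ext 𝕂 O Ω → Inner Ω O r → Q1 O Ω,
        ∃ C : ℕ, ∀ n ≥ C, (n : ℝ) ≤ r (n ^ C)]) ∧
      ∀ a : ℕ → ℕ, List.TFAE [
        ∀ O, Approx O O r → Enough O O a,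
        ∀ O, Inner O O r → Enough O O a,
        ∀ O Ω, Ext 𝕂 O Ω → Approx Ω O r → Enough O Ω a,
        ∀ O Ω, Ext 𝕂 O Ω → Inner Ω O r → Enough O Ω a,
        ∃ C : ℕ, ∀ n ≥ C, (n : ℝ) ≤ a n + C * (r (n ^ C) + Nat.log 2 (n + 1))]) ∧
    -- the weakest average-case complementation is closure of doubly exponential time
    ∀ O, More O ↔ Closed O fun n => 2 ^ n := by
  refine ⟨fun 𝕂 r s hr h1 => ⟨?_, ?_⟩, fun 𝕂 r hr h1 => ⟨?_, fun a => ?_⟩,
    fun O => more_iff.trans (LibAV75.main4 O)⟩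
  · simp only [approx_iff, inner_iff]
    exact LibAA75.final1 𝕂 hr h1
  · simp only [approx_iff, inner_iff]
    exact LibAA75.final5 𝕂 hr h1
  · simp only [approx_iff, inner_iff]
    exact LibAA75.final2 𝕂 hr h1
  · simp only [approx_iff, inner_iff]
    exact LibAA75.final3 𝕂 hr h1

end Pool.Agent.Old6cef49.AverageCaseLaws
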